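import Pool.Agent.Helper6.O3.St

/-!
# Project O3 (MP_d49380_lc): module BS (soundness, nondegenerate case)
-/

set_option autoImplicit false

namespace Pool.Agent.Helper26.O3

open Pool.Agent.Helper6.O3 Filter Topology
open Pool.Agent.Helper99.DF (T TL sq chk Cert ver StVER StTRA StCMP StSND StPR1 StPRC StVP)

theorem hBS (hSP : StSP) (hPF : StPF) (hP2 : StP2) (hRR : StRR) (hPS : StPS) : StBS := by
  intro c p q r n h0 h1 h2 hka hr hlb hcase
  rw [hSP c n h0 h1]
  refine ⟨hlb, ?_⟩
  set ρ : ℕ → ℝ := fun k => c (k + n) with hρ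
  have ρ0 : ρ 0 = 0 := by simp only [hρ]; rw [zero_add]; exact h0
  have ρ1 : ρ 1 = 0 := by simp only [hρ]; rw [add_comm]; exact h1
  have ρ2 : 0 < ρ 2 := by simp only [hρ]; rw [add_comm]; exact h2
  have hkaρ : ∀ m, ka p q r ρ m = 0 := by
    intro m
    have := hka (m + n) (by omega)
    simp only [ka, hρ] at this ⊢
    rw [show m + 3 + n = m + n + 3 by omega, show m + 2 + n = m + n + 2 by omega,
      show m + 1 + n = m + n + 1 by omega]
    exact this
  have hTT := hPF ρ p q r ρ0 ρ1 hkaρ hr.ne'
  have key : (∀ k, 0 ≤ ρ k) ∧ (∀ k, 0 ≤ T ρ k) := by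
    rcases hcase with ⟨hp, hq, hd⟩ | ⟨m, hm, hm0, hm1, hpos⟩
    · obtain ⟨α, β, γ, hα, hβ, hγ, e1, e2, e3⟩ := hRR p q r hp hq hr hd
      exact hPS ρ α β γ hα hβ hγ ρ0 ρ1 ρ2.le (by rw [← e1, ← e2, ← e3]; exact hkaρ)
    · obtain ⟨j, rfl⟩ : ∃ j, m = j + n := ⟨m - n, by omega⟩
      have hj : 3 ≤ j := by omega
      have ρj : ρ j = 0 := hm0
      have ρj1 : ρ (j + 1) = 0 := by
        simp only [hρ]
        rw [show j + 1 + n = j + n + 1 by omega]
        exact hm1
      set la : ℝ := ρ (j + 2) / ρ 2 with hla
      have ρj2 : 0 ≤ ρ (j + 2) := by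
        have := (hpos (j + 2 + n) (by omega)).1
        exact this
      have hla0 : 0 ≤ la := div_nonneg ρj2 ρ2.le
      have hrec : ∀ m, ρ (m + 3) = p * ρ (m + 2) + q * ρ (m + 1) + r * ρ m := by
        intro m
        have := hkaρ m
        simp only [ka] at this
        linarith
      have hper : ∀ k, ρ (j + k) = la * ρ k ∧ ρ (j + (k + 1)) = la * ρ (k + 1) ∧
          ρ (j + (k + 2)) = la * ρ (k + 2) := by
        intro k
        induction k with
        | zero =>
          refine ⟨?_, ?_, ?_⟩
          · rw [add_zero, ρj, ρ0, mul_zero]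
          · rw [zero_add, ρj1, ρ1, mul_zero]
          · rw [zero_add, hla, div_mul_cancel₀ _ ρ2.ne']
        | succ k ih =>
          obtain ⟨i0, i1, i2⟩ := ih
          refine ⟨i1, i2, ?_⟩
          have e1 := hrec (j + k)
          have e2 := hrec k
          rw [show k + 1 + 2 = k + 3 by omega, show j + (k + 3) = j + k + 3 by omega, e1, e2,
            show j + k + 2 = j + (k + 2) by omega, show j + k + 1 = j + (k + 1) by omega, i0, i1, i2]
          ring
      have hperT : ∀ k, 1 ≤ k → T ρ (j + k) = la ^ 2 * T ρ k := by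
        intro k hk
        obtain ⟨i, rfl⟩ := Nat.exists_eq_add_of_le' hk
        have a0 := (hper i).1
        have a1 := (hper i).2.1
        have a2 := (hper i).2.2
        simp only [T]
        rw [show j + (i + 1) - 1 = j + i by omega, show i + 1 - 1 = i by omega,
          show j + (i + 1) + 1 = j + (i + 2) by omega, a0, a1, a2]
        ring
      have hall : ∀ k, 0 ≤ ρ k ∧ 0 ≤ T ρ k := by
        intro k
        induction k using Nat.strong_induction_on with
        | _ k ih =>
          by_cases hk : k ≤ j + 2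
          · have hp1 := hpos (k + n) (by omega)
            refine ⟨hp1.1, ?_⟩
            rcases Nat.eq_zero_or_pos k with rfl | hkp
            · simp only [T]
              rw [show (0 : ℕ) - 1 = 0 by omega, ρ0]
              simp
            · have hT : T ρ k = T c (k + n) := by
                simp only [T, hρ]
                rw [show k - 1 + n = k + n - 1 by omega, show k + 1 + n = k + n + 1 by omega]
              rw [hT]
              exact hp1.2
          · obtain ⟨i, rfl⟩ : ∃ i, k = j + i := ⟨k - j, by omega⟩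
            have hi := ih i (by omega)
            refine ⟨?_, ?_⟩
            · rw [(hper i).1]
              exact mul_nonneg hla0 hi.1
            · rw [hperT i (by omega)]
              exact mul_nonneg (sq_nonneg _) hi.2
      exact ⟨fun k => (hall k).1, fun k => (hall k).2⟩
  exact hP2 ρ (ρ 2 ^ 3 / r ^ 2) r ρ0 (by positivity) hr.le hTT key.1 key.2

end Pool.Agent.Helper26.O3
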